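import Mathlib
import Pool.Agent.Q236.EH.Final

/-!
# The diagonal Moebius-twisted Elliott-Halberstam conjecture for almost all `N`, at every level `N ^ θ`, `θ < 1`
-/

set_option autoImplicit false

namespace Pool.Agent.Results.MP_e9eb55_nt.AlmostAllN

open Filter

/-- `g₁(m) = μ(m)` -/
noncomputable def g₁ (m : ℕ) : ℝ := (ArithmeticFunction.moebius m : ℝ)

/-- `g₂(m) = μ(m) log m` -/
noncomputable def g₂ (m : ℕ) : ℝ := (ArithmeticFunction.moebius m : ℝ) * Real.log m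

/-- `D_g(N; θ)`: the sum over the moduli `q ≤ N ^ θ` coprime to `N` of
`|∑_{n < N, n ≡ N (mod q)} Λ(n) g(N - n) - (1 / φ(q)) ∑_{n < N} Λ(n) g(N - n)|`. -/
noncomputable def D (g : ℕ → ℝ) (N : ℕ) (θ : ℝ) : ℝ :=
  ∑ q ∈ (Finset.Icc 1 N).filter (fun q : ℕ => (q : ℝ) ≤ (N : ℝ) ^ θ ∧ Nat.Coprime q N),
    |∑ n ∈ (Finset.Ico 1 N).filter (fun n => n ≡ N [MOD q]), ArithmeticFunction.vonMangoldt n * g (N - n) -
      1 / (Nat.totient q : ℝ) * ∑ n ∈ Finset.Ico 1 N, ArithmeticFunction.vonMangoldt n * g (N - n)|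

lemma D_eq₁ (N : ℕ) (θ : ℝ) : D g₁ N θ = Pool.Agent.Q236.EH.DD false N θ := by
  have h : ∀ m : ℕ, g₁ m = Pool.Agent.H373R2.T7.muR m * Pool.Agent.Q236.EH.w false m := by
    intro m
    simp [g₁, Pool.Agent.H373R2.T7.muR, Pool.Agent.Q236.EH.w]
  unfold D Pool.Agent.Q236.EH.DD Pool.Agent.Q236.EH.Lam
  simp_rw [h]

lemma D_eq₂ (N : ℕ) (θ : ℝ) : D g₂ N θ = Pool.Agent.Q236.EH.DD true N θ := by
  have h : ∀ m : ℕ, g₂ m = Pool.Agent.H373R2.T7.muR m * Pool.Agent.Q236.EH.w true m := by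
    intro m
    simp [g₂, Pool.Agent.H373R2.T7.muR, Pool.Agent.Q236.EH.w]
  unfold D Pool.Agent.Q236.EH.DD Pool.Agent.Q236.EH.Lam
  simp_rw [h]

/-- 1. For all `θ < 1` and all `A`, the mean square of `D_g(N; θ)` over `N ≤ X` is at most
`X ^ 2 / (log X) ^ A` for large `X`, for `g = μ` and `g = μ log`.
2. There is one set `E` of integers, with at most `X / (log X) ^ B` elements up to `X` for every `B` and all
large `X`, such that `dEH(N ^ θ)` holds for every `θ < 1` outside `E`: for all `θ < 1` and all `A` the bounds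
`D_g(N; θ) ≤ N / (log N) ^ A` hold for all large `N` which are not in `E`. -/
theorem result :
    (∀ θ : ℝ, 0 < θ → θ < 1 → ∀ A : ℝ, ∀ᶠ X : ℕ in atTop,
      ∑ N ∈ Finset.Icc 1 X, D g₁ N θ ^ 2 ≤ X ^ 3 / Real.log X ^ A ∧
      ∑ N ∈ Finset.Icc 1 X, D g₂ N θ ^ 2 ≤ X ^ 3 / Real.log X ^ A) ∧
    ∃ E : Set ℕ,
      (∀ B : ℝ, ∀ᶠ X : ℕ in atTop, ((E ∩ Set.Icc 1 X).ncard : ℝ) ≤ X / Real.log X ^ B) ∧
      ∀ θ : ℝ, 0 < θ → θ < 1 → ∀ A : ℝ, ∀ᶠ N : ℕ in atTop, N ∉ E →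
        D g₁ N θ ≤ N / Real.log N ^ A ∧ D g₂ N θ ≤ N / Real.log N ^ A := by
  have hpow : ∀ (A : ℝ) (k : ℕ), A ≤ k → ∀ c L : ℝ, 0 ≤ c → 1 ≤ L → c / L ^ k ≤ c / L ^ A := by
    intro A k hk c L hc hL
    have h1 : L ^ A ≤ L ^ k := by
      rw [← Real.rpow_natCast]
      exact Real.rpow_le_rpow_of_exponent_le hL hk
    exact div_le_div_of_nonneg_left hc (by positivity) h1
  refine ⟨?_, ?_⟩
  · intro θ h0 h1 A
    obtain ⟨k, hk⟩ := exists_nat_ge A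
    filter_upwards [Pool.Agent.Q236.EH.second θ h0 h1 k, Pool.Agent.Q236.EH.log_ge 1] with X hX hL
    simp_rw [D_eq₁, D_eq₂]
    exact ⟨(hX false).trans (hpow A k hk _ _ (by positivity) hL),
      (hX true).trans (hpow A k hk _ _ (by positivity) hL)⟩
  · obtain ⟨E, hE1, hE2⟩ := Pool.Agent.Q236.EH.exceptional
    refine ⟨E, ?_, ?_⟩
    · intro B
      obtain ⟨k, hk⟩ := exists_nat_ge B
      filter_upwards [hE1 k, Pool.Agent.Q236.EH.log_ge 1] with X hX hL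
      exact hX.trans (hpow B k hk _ _ (by positivity) hL)
    · intro θ _ h1 A
      obtain ⟨k, hk⟩ := exists_nat_ge A
      filter_upwards [hE2 θ h1 k, Pool.Agent.Q236.EH.log_ge 1] with N hN hL hNE
      rw [D_eq₁, D_eq₂]
      exact ⟨(hN hNE false).trans (hpow A k hk _ _ (by positivity) hL),
        (hN hNE true).trans (hpow A k hk _ _ (by positivity) hL)⟩

end Pool.Agent.Results.MP_e9eb55_nt.AlmostAllN
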