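import Pool.Agent.Q255.EP.Fin2
import Pool.Agent.Q13.EP.REC
import Pool.Agent.Q190.EP.AZ
import Pool.Agent.Q190.EP.DET
import Pool.Agent.Q190.EP.Eng
import Pool.Agent.Q14.EP.Fin
import Pool.Agent.Q68.EP.Law
import Pool.Agent.Q176.EP.Main
import Pool.Agent.Q241.EP.DiagL
import Pool.Agent.Q241.EP.Agg
import Pool.Agent.Q153.EP.SOFT

/-!
# The entropy threshold of the diagonal Moebius-twisted Elliott-Halberstam conjecture

Let `f` be completely multiplicative with the values `1`, `-1` at the primes, the joint law of the signs `f(p)`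
arbitrary; `I(x)` is the relative entropy (Kullback-Leibler divergence) of the law of the signs `f(p)`, `p ≤ x`,
to independent fair signs. The conjecture dEH(N^θ) of the problem for all `θ < 1`, with `μ f` and `μ f log` in
place of `μ` and `μ log`, holds almost surely for ALL laws with `I(x) = O(x/(log x)^A)` for all `A`; and no fixed
`A` is enough: for every `A` some law with `I(x) = O(x/(log x)^A)` almost surely violates dEH(N^θ) for every
`θ`. Both statements remain true after any change of `f` at finitely many primes.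
-/

set_option autoImplicit false

namespace Pool.Agent.Results.MP_e9eb55_nt.EntropyThreshold

open Finset Filter Topology MeasureTheory

/-- the sign at the prime with the number `k` (`2` has the number `0`) -/
def sign (ω : ℕ → Bool) (k : ℕ) : ℝ := if ω k then 1 else -1

/-- `f(n) = ∏_p f(p)^{v_p(n)}`, the completely multiplicative function with the sign `ω k` at the prime with the
number `k` (`Nat.count Nat.Prime p` is the number of the primes less than `p`) -/
noncomputable def f (ω : ℕ → Bool) (n : ℕ) : ℝ :=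
  n.factorization.prod fun p j => sign ω (Nat.count Nat.Prime p) ^ j

/-- `I(x)`: the relative entropy `∑_s q(s) log (2^n q(s))` of the law `q` of the signs at the `n = π(x)` primes
`p ≤ x` to independent fair signs, in nats -/
noncomputable def information (ν : Measure (ℕ → Bool)) (x : ℕ) : ℝ :=
  ∑ s : Fin (Nat.primeCounting x) → Bool, ν.real {ω | ∀ k : Fin (Nat.primeCounting x), ω k = s k} *
    Real.log (2 ^ Nat.primeCounting x *
      ν.real {ω | ∀ k : Fin (Nat.primeCounting x), ω k = s k})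

/-- `I(x) = O(x/(log x)^A)` -/
def InformationIsO (ν : Measure (ℕ → Bool)) (A : ℝ) : Prop :=
  ∃ C : ℝ, ∀ x : ℕ, 2 ≤ x → information ν x ≤ C * x / Real.log x ^ A

/-- `g₁(m) = μ(m) h(m)` -/
noncomputable def g₁ (h : ℕ → ℝ) (m : ℕ) : ℝ := ((ArithmeticFunction.moebius m : ℤ) : ℝ) * h m

/-- `g₂(m) = μ(m) h(m) log m` -/
noncomputable def g₂ (h : ℕ → ℝ) (m : ℕ) : ℝ :=
  ((ArithmeticFunction.moebius m : ℤ) : ℝ) * h m * Real.log m

/-- `D_g(N; θ)` as in the problem -/
noncomputable def D (g : ℕ → ℝ) (N : ℕ) (θ : ℝ) : ℝ :=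
  ∑ q ∈ (Finset.Icc 1 N).filter (fun q : ℕ => (q : ℝ) ≤ (N : ℝ) ^ θ ∧ Nat.Coprime q N),
    |∑ n ∈ (Finset.Ico 1 N).filter (fun n => n ≡ N [MOD q]), ArithmeticFunction.vonMangoldt n * g (N - n) -
      1 / (Nat.totient q : ℝ) * ∑ n ∈ Finset.Ico 1 N, ArithmeticFunction.vonMangoldt n * g (N - n)|

/-- the statement dEH(N ^ θ) for the functions `μ h` and `μ h log` -/
def DEH (h : ℕ → ℝ) (θ : ℝ) : Prop :=
  ∀ A : ℝ, 0 < A → ∃ C : ℝ, ∀ᶠ N : ℕ in atTop,
    D (g₁ h) N θ ≤ C * (N * Real.log N ^ (-A)) ∧ D (g₂ h) N θ ≤ C * (N * Real.log N ^ (-A))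

/-! ## Translation -/

open Pool.Agent.Q255.EP

theorem info_eq (ν : Measure (ℕ → Bool)) [IsProbabilityMeasure ν] (x : ℕ) :
    information ν x = Pool.Agent.Q255.IR.D ν (Nat.primeCounting x) := D_eq_sum ν _

theorem logInfo_of {ν : Measure (ℕ → Bool)} [IsProbabilityMeasure ν]
    (h : ∀ A : ℝ, 0 < A → InformationIsO ν A) : LogInfo ν := by
  intro A hA
  obtain ⟨C, hC⟩ := h A hA
  exact ⟨C, fun x hx => by rw [← info_eq]; exact hC x hx⟩

theorem g1_eq (h : ℕ → ℝ) : g₁ h = Pool.Agent.Q163.HC.gf h false := by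
  funext m
  unfold g₁ Pool.Agent.Q163.HC.gf Pool.Agent.Q163.HC.lg
  simp

theorem g2_eq (h : ℕ → ℝ) : g₂ h = Pool.Agent.Q163.HC.gf h true := by
  funext m
  unfold g₂ Pool.Agent.Q163.HC.gf Pool.Agent.Q163.HC.lg
  simp

section Main

variable (hE : S_ENGL) (hD : S_ENGL → S_DIAGL) (hA : S_AGG) (hS : S_SOFT)

include hE hD in
/-- the conjecture below the threshold -/
theorem holds (ν : Measure (ℕ → Bool)) [IsProbabilityMeasure ν]
    (hν : ∀ A : ℝ, 0 < A → InformationIsO ν A) :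
    ∀ᵐ ω ∂ν, ∀ ω' : ℕ → Bool, {k | ω' k ≠ ω k}.Finite → ∀ θ : ℝ, 0 < θ → θ < 1 → DEH (f ω') θ := by
  refine ae_fin_log Pool.Agent.Q14.EP.t_FIN (fun ν' _ hν' => ?_) ν (logInfo_of hν)
  filter_upwards [hD hE ν' hν'] with ω hω θ h1 h2 A hA
  obtain ⟨C, hC⟩ := hω θ h1 h2 A hA
  refine ⟨C, ?_⟩
  filter_upwards [hC] with N hN
  rw [g1_eq, g2_eq]
  exact ⟨hN false, hN true⟩

include hA hS in
/-- the conjecture fails for a given function -/
theorem fails {K : ℕ} (hK : 1 ≤ K) {ω : ℕ → Bool}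
    (h : ∀ ε : ℝ, 0 < ε → ∃ C : ℝ, ∀ n : ℕ,
      |∑ k ∈ Finset.range n, (Pool.Agent.Q255.IC.sg ω k -
        -(Real.log (Pool.Agent.Q255.IC.pr k + 1)) ^ (-((K : ℝ) - 1 / 2)))| ≤
          C * ((n : ℝ) + 1) ^ (1 / 2 + ε)) {θ : ℝ} (hθ : 0 < θ) : ¬ DEH (f ω) θ := by
  intro H
  obtain ⟨C, hC⟩ := H ((K : ℝ) + 2) (by positivity)
  refine hS K ω hK h ?_
  have h1 := hA (g₁ (f ω)) θ ((K : ℝ) + 2) hθ (by positivity) (fun m => ?_)
    ⟨C, hC.mono fun N hN => ?_⟩
  · exact h1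
  · have h2 : |f ω m| = 1 := Pool.Agent.Q13.EP.abs_cm ω m
    have h3 : |((ArithmeticFunction.moebius m : ℤ) : ℝ)| ≤ 1 := by
      have := ArithmeticFunction.abs_moebius_le_one (n := m)
      exact_mod_cast this
    unfold g₁
    rw [abs_mul, h2, mul_one]
    exact h3
  · exact hN.1

include hA hS in
/-- no fixed power of the logarithm is enough -/
theorem sharp (A : ℝ) : ∃ ν : Measure (ℕ → Bool), IsProbabilityMeasure ν ∧ InformationIsO ν A ∧
    ∀ᵐ ω ∂ν, ∀ ω' : ℕ → Bool, {k | ω' k ≠ ω k}.Finite → ∀ θ : ℝ, 0 < θ → ¬ DEH (f ω') θ := by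
  obtain ⟨K, hK⟩ := exists_nat_ge (max A 1)
  have hK1 : 1 ≤ K := by exact_mod_cast (le_max_right A 1).trans hK
  have hKA : A ≤ 2 * (K : ℝ) - 1 := by
    have h1 := (le_max_left A 1).trans hK
    have h2 : (1 : ℝ) ≤ K := by exact_mod_cast hK1
    linarith
  obtain ⟨ν, hν, hI, hdev⟩ := Pool.Agent.Q68.EP.law_stm
    (fun k => -(Real.log (Pool.Agent.Q255.IC.pr k + 1)) ^ (-((K : ℝ) - 1 / 2)))
    (dK_le K hK1)
  obtain ⟨C, hC⟩ := sum_dK_le K hK1
  refine ⟨ν, hν, ?_, ?_⟩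
  · -- the information
    refine ⟨|C| * ((Real.log 2) ^ (A - (2 * (K : ℝ) - 1))), fun x hx => ?_⟩
    have hx2 : (2 : ℝ) ≤ x := by exact_mod_cast hx
    have hlog2 : 0 < Real.log 2 := Real.log_pos (by norm_num)
    have hlog : Real.log 2 ≤ Real.log x := Real.log_le_log (by norm_num) hx2
    have hlogp : 0 < Real.log x := by linarith
    rw [info_eq]
    refine ((hI _).trans (hC x hx)).trans ?_
    have h1 : Real.log x ^ (A - (2 * (K : ℝ) - 1)) ≤ Real.log 2 ^ (A - (2 * (K : ℝ) - 1)) :=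
      Real.rpow_le_rpow_of_nonpos hlog2 hlog (by linarith)
    have h2 : Real.log x ^ A = Real.log x ^ (A - (2 * (K : ℝ) - 1)) * Real.log x ^ (2 * (K : ℝ) - 1) := by
      rw [← Real.rpow_add hlogp]
      congr 1
      ring
    rw [div_le_div_iff₀ (by positivity) (by positivity), h2]
    have h3 : C * (x : ℝ) ≤ |C| * x := mul_le_mul_of_nonneg_right (le_abs_self C) (by positivity)
    calc C * x * (Real.log x ^ (A - (2 * (K : ℝ) - 1)) * Real.log x ^ (2 * (K : ℝ) - 1))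
        ≤ |C| * x * (Real.log 2 ^ (A - (2 * (K : ℝ) - 1)) * Real.log x ^ (2 * (K : ℝ) - 1)) := by
          refine mul_le_mul h3 (mul_le_mul_of_nonneg_right h1 (by positivity)) (by positivity)
            (by positivity)
      _ = _ := by ring
  · filter_upwards [hdev] with ω hω ω' hω' θ hθ
    exact fails hA hS hK1 (dev_fin hω' hω) hθ

end Main

/-- **The entropy threshold of dEH.**

1. If `I(x) = O(x/(log x)^A)` for every `A > 0`, then almost surely, for every `f'` equal to `f` at all but finitely many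
primes, dEH(N^θ) holds for `μ f'` and `μ f' log` for every `0 < θ < 1`.
2. For every `A` there is a law with `I(x) = O(x/(log x)^A)` such that almost surely, for all these `f'`, dEH(N^θ)
fails for every `θ > 0`. -/
theorem result :
    (∀ (ν : Measure (ℕ → Bool)) [IsProbabilityMeasure ν], (∀ A : ℝ, 0 < A → InformationIsO ν A) →
      ∀ᵐ ω ∂ν, ∀ ω' : ℕ → Bool, {k | ω' k ≠ ω k}.Finite → ∀ θ : ℝ, 0 < θ → θ < 1 → DEH (f ω') θ) ∧
    (∀ A : ℝ, ∃ ν : Measure (ℕ → Bool), IsProbabilityMeasure ν ∧ InformationIsO ν A ∧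
      ∀ᵐ ω ∂ν, ∀ ω' : ℕ → Bool, {k | ω' k ≠ ω k}.Finite → ∀ θ : ℝ, 0 < θ → ¬ DEH (f ω') θ) :=
  ⟨fun ν _ hν => holds Pool.Agent.Q176.EP.t_ENGL Pool.Agent.Q241.EP.diagL ν hν,
    fun A => sharp Pool.Agent.Q241.EP.agg Pool.Agent.Q153.EP.soft A⟩

end Pool.Agent.Results.MP_e9eb55_nt.EntropyThreshold
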