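import Pool.Agent.Q255.EP.Fin
import Pool.Agent.Q13.EP.REC
import Pool.Agent.Q190.EP.AZ
import Pool.Agent.Q190.EP.DET
import Pool.Agent.Q190.EP.PRD
import Pool.Agent.Q190.EP.Eng
import Pool.Agent.Q14.EP.Fin
import Pool.Agent.Q14.EP.Diag
import Pool.Agent.Q96.EP.Lawe
import Pool.Agent.Q149.EP.DLOW

/-!
# The diagonal twisted Elliott-Halberstam discrepancies at a given amount of information

Let `f` be completely multiplicative with the values `1`, `-1` at the primes, the joint law of the signs `f(p)`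
arbitrary; `I(x)` is the relative entropy (Kullback-Leibler divergence) of the law of the signs `f(p)`, `p ≤ x`,
to independent fair signs. `D_g(N; θ)` is the discrepancy of the problem with `μ f` and `μ f log` in place of
`g₁` and `g₂`.

1. If `I(x) ≤ x^{δ + o(1)}`, then almost surely for every `θ < 1` and ALL large `N` the discrepancies are at most
`N^{σ + θ(1-σ)}` for every `σ > (1+δ)/2`, that is `N^{1 - (1-δ)(1-θ)/2 + ε}`; in particular dEH(N^θ) holds for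
every `θ < 1` if `δ < 1`. The same holds after any change of `f` at finitely many primes.
2. This exponent is optimal in the mean for every `0 < δ < 1`: for one law with `I(x) = O(x^δ)`, for all `θ`, the mean of
`D_g(N; θ)` is at least `N^{1 - (1-δ)(1-θ)/2 - ε}` for some `N` in every dyadic block `(Z, 2Z]`, `Z` large.
-/

set_option autoImplicit false

namespace Pool.Agent.Results.MP_e9eb55_nt.ExponentAtGivenInformation

open Finset Filter Topology MeasureTheory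

/-- the sign at the prime with the number `k` (`2` has the number `0`) -/
def sign (ω : ℕ → Bool) (k : ℕ) : ℝ := if ω k then 1 else -1

/-- `f(n) = ∏_p f(p)^{v_p(n)}`, the completely multiplicative function with the sign `ω k` at the prime with the
number `k` (`Nat.count Nat.Prime p` is the number of the primes less than `p`) -/
noncomputable def f (ω : ℕ → Bool) (n : ℕ) : ℝ :=
  n.factorization.prod fun p j => sign ω (Nat.count Nat.Prime p) ^ j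

/-- `I(x)`: the relative entropy `∑_s q(s) log (2^n q(s))` of the law `q` of the signs at the `n = π(x)` primes
`p ≤ x` to independent fair signs, in nats -/
noncomputable def information (ν : Measure (ℕ → Bool)) (x : ℕ) : ℝ :=
  ∑ s : Fin (Nat.primeCounting x) → Bool, ν.real {ω | ∀ k : Fin (Nat.primeCounting x), ω k = s k} *
    Real.log (2 ^ Nat.primeCounting x *
      ν.real {ω | ∀ k : Fin (Nat.primeCounting x), ω k = s k})

/-- `I(x) ≤ x^{δ + o(1)}` -/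
def InformationExponentAtMost (ν : Measure (ℕ → Bool)) (δ : ℝ) : Prop :=
  ∀ ε : ℝ, 0 < ε → ∀ᶠ x : ℕ in atTop, information ν x ≤ (x : ℝ) ^ (δ + ε)

/-- `g₁(m) = μ(m) h(m)` -/
noncomputable def g₁ (h : ℕ → ℝ) (m : ℕ) : ℝ := ((ArithmeticFunction.moebius m : ℤ) : ℝ) * h m

/-- `g₂(m) = μ(m) h(m) log m` -/
noncomputable def g₂ (h : ℕ → ℝ) (m : ℕ) : ℝ :=
  ((ArithmeticFunction.moebius m : ℤ) : ℝ) * h m * Real.log m

/-- `D_g(N; θ)` as in the problem -/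
noncomputable def D (g : ℕ → ℝ) (N : ℕ) (θ : ℝ) : ℝ :=
  ∑ q ∈ (Finset.Icc 1 N).filter (fun q : ℕ => (q : ℝ) ≤ (N : ℝ) ^ θ ∧ Nat.Coprime q N),
    |∑ n ∈ (Finset.Ico 1 N).filter (fun n => n ≡ N [MOD q]), ArithmeticFunction.vonMangoldt n * g (N - n) -
      1 / (Nat.totient q : ℝ) * ∑ n ∈ Finset.Ico 1 N, ArithmeticFunction.vonMangoldt n * g (N - n)|

/-- the statement dEH(N ^ θ) for the functions `μ h` and `μ h log` -/
def DEH (h : ℕ → ℝ) (θ : ℝ) : Prop :=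
  ∀ A : ℝ, 0 < A → ∃ C : ℝ, ∀ᶠ N : ℕ in atTop,
    D (g₁ h) N θ ≤ C * (N * Real.log N ^ (-A)) ∧ D (g₂ h) N θ ≤ C * (N * Real.log N ^ (-A))

/-- the discrepancies are at most `N^{κ(θ) + ε}` for all `0 < θ < 1` and all large `N` -/
def ExponentAtMost (h : ℕ → ℝ) (κ : ℝ → ℝ) : Prop :=
  ∀ θ ε : ℝ, 0 < θ → θ < 1 → 0 < ε → ∀ᶠ N : ℕ in atTop,
    D (g₁ h) N θ ≤ (N : ℝ) ^ (κ θ + ε) ∧ D (g₂ h) N θ ≤ (N : ℝ) ^ (κ θ + ε)

/-! ## Translation -/

open Pool.Agent.Q255.EP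

theorem info_eq (ν : Measure (ℕ → Bool)) [IsProbabilityMeasure ν] (x : ℕ) :
    information ν x = Pool.Agent.Q255.IR.D ν (Nat.primeCounting x) := D_eq_sum ν _

theorem IL_of {ν : Measure (ℕ → Bool)} [IsProbabilityMeasure ν] {δ : ℝ}
    (h : InformationExponentAtMost ν δ) : IL ν δ := by
  intro ε hε
  filter_upwards [h ε hε] with x hx
  rwa [info_eq] at hx

theorem g1_eq (h : ℕ → ℝ) : g₁ h = Pool.Agent.Q163.HC.gf h false := by
  funext m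
  unfold g₁ Pool.Agent.Q163.HC.gf Pool.Agent.Q163.HC.lg
  simp

theorem g2_eq (h : ℕ → ℝ) : g₂ h = Pool.Agent.Q163.HC.gf h true := by
  funext m
  unfold g₂ Pool.Agent.Q163.HC.gf Pool.Agent.Q163.HC.lg
  simp

theorem eng : S_ENG := Pool.Agent.Q190.EP.t_ENG

/-- the upper bound, for all laws -/
theorem upper (ν : Measure (ℕ → Bool)) [IsProbabilityMeasure ν] {δ : ℝ} (hδ : 0 ≤ δ) (hν : IL ν δ) :
    ∀ᵐ ω ∂ν, ∀ ω' : ℕ → Bool, {k | ω' k ≠ ω k}.Finite → ∀ σ θ : ℝ, (1 + δ) / 2 < σ → σ ≤ 1 → 0 < θ →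
      θ < 1 → ∀ᶠ N : ℕ in atTop, D (g₁ (f ω')) N θ ≤ (N : ℝ) ^ (σ + θ * (1 - σ)) ∧
        D (g₂ (f ω')) N θ ≤ (N : ℝ) ^ (σ + θ * (1 - σ)) := by
  refine ae_fin Pool.Agent.Q14.EP.t_FIN hδ (fun ν' _ hν' => ?_) ν hν
  filter_upwards [Pool.Agent.Q14.EP.diag eng ν' δ hδ hν'] with ω hω σ θ h1 h2 h3 h4
  filter_upwards [hω σ θ h1 h2 h3 h4] with N hN
  rw [g1_eq, g2_eq]
  exact ⟨hN false, hN true⟩

/-- the trivial bound for large exponents -/
theorem exponent_of {h : ℕ → ℝ} {δ : ℝ} (hδ : δ < 1) (H : ∀ σ θ : ℝ, (1 + δ) / 2 < σ → σ ≤ 1 → 0 < θ →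
    θ < 1 → ∀ᶠ N : ℕ in atTop, D (g₁ h) N θ ≤ (N : ℝ) ^ (σ + θ * (1 - σ)) ∧
      D (g₂ h) N θ ≤ (N : ℝ) ^ (σ + θ * (1 - σ))) :
    ExponentAtMost h fun θ => 1 - (1 - δ) * (1 - θ) / 2 := by
  intro θ ε h1 h2 h3
  obtain ⟨σ, hσ1, hσ2⟩ : ∃ σ : ℝ, (1 + δ) / 2 < σ ∧ σ ≤ min 1 ((1 + δ) / 2 + ε) := by
    have : (1 + δ) / 2 < min 1 ((1 + δ) / 2 + ε) := lt_min (by linarith) (by linarith)
    exact ⟨_, this, le_rfl⟩
  have hσ3 := hσ2.trans (min_le_left _ _)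
  have hσ4 := hσ2.trans (min_le_right _ _)
  filter_upwards [H σ θ hσ1 hσ3 h1 h2, eventually_ge_atTop 1] with N hN hN1
  have hNr : (1 : ℝ) ≤ N := by exact_mod_cast hN1
  have h5 : σ + θ * (1 - σ) ≤ 1 - (1 - δ) * (1 - θ) / 2 + ε := by
    nlinarith
  have h6 := Real.rpow_le_rpow_of_exponent_le hNr h5
  exact ⟨hN.1.trans h6, hN.2.trans h6⟩

theorem deh_of {h : ℕ → ℝ} {κ : ℝ → ℝ} (H : ExponentAtMost h κ) {θ : ℝ} (hθ0 : 0 < θ)
    (hθ : θ < 1) (hκ : κ θ < 1) : DEH h θ := by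
  intro A hA
  have h3 := H θ ((1 - κ θ) / 2) hθ0 hθ (by linarith)
  have hδ : 0 < (1 - κ θ) / 2 := by linarith
  have h4 : ∀ᶠ N : ℕ in atTop, ‖Real.log (N : ℝ) ^ A‖ ≤ 1 * ‖(N : ℝ) ^ ((1 - κ θ) / 2)‖ :=
    tendsto_natCast_atTop_atTop.eventually ((isLittleO_log_rpow_rpow_atTop A hδ).bound zero_lt_one)
  refine ⟨1, ?_⟩
  filter_upwards [h3, h4, eventually_ge_atTop 3] with N hN1 hN2 hN
  have hN3 : (3 : ℝ) ≤ N := by exact_mod_cast hN
  have hNp : (0 : ℝ) < N := by linarith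
  have hlog : 0 < Real.log N := Real.log_pos (by linarith)
  rw [Real.norm_of_nonneg (by positivity), Real.norm_of_nonneg (by positivity), one_mul] at hN2
  have h5 : (N : ℝ) ^ (κ θ + (1 - κ θ) / 2) ≤ 1 * (N * Real.log N ^ (-A)) := by
    rw [one_mul, Real.rpow_neg hlog.le, ← div_eq_mul_inv, le_div_iff₀ (by positivity)]
    calc (N : ℝ) ^ (κ θ + (1 - κ θ) / 2) * Real.log N ^ A ≤
          (N : ℝ) ^ (κ θ + (1 - κ θ) / 2) * (N : ℝ) ^ ((1 - κ θ) / 2) :=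
          mul_le_mul_of_nonneg_left hN2 (by positivity)
      _ = N := by
          rw [← Real.rpow_add hNp]
          have : κ θ + (1 - κ θ) / 2 + (1 - κ θ) / 2 = 1 := by ring
          rw [this, Real.rpow_one]
  exact ⟨hN1.1.trans h5, hN1.2.trans h5⟩

/-- the lower bound in the mean -/
theorem lower (hLow : S_DLOW) {δ : ℝ} (hδ0 : 0 < δ) (hδ : δ < 1) :
    ∃ ν : Measure (ℕ → Bool), IsProbabilityMeasure ν ∧
      (∃ C : ℝ, ∀ x : ℕ, 1 ≤ x → information ν x ≤ C * (x : ℝ) ^ δ) ∧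
      ∀ θ ε : ℝ, 0 < θ → θ < 1 → 0 < ε → ∀ᶠ Z : ℕ in atTop,
        (∃ N : ℕ, Z < N ∧ N ≤ 2 * Z ∧
          (N : ℝ) ^ (1 - (1 - δ) * (1 - θ) / 2 - ε) ≤ ∫ ω, D (g₁ (f ω)) N θ ∂ν) ∧
        ∃ N : ℕ, Z < N ∧ N ≤ 2 * Z ∧
          (N : ℝ) ^ (1 - (1 - δ) * (1 - θ) / 2 - ε) ≤ ∫ ω, D (g₂ (f ω)) N θ ∂ν := by
  have hd : ∀ k, |(-(Pool.Agent.Q255.IC.pr k : ℝ) ^ ((δ - 1) / 2))| ≤ 1 := by
    intro k
    rw [abs_neg, abs_of_nonneg (by positivity)]
    exact Real.rpow_le_one_of_one_le_of_nonpos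
      (by exact_mod_cast (Pool.Agent.Q255.IC.pr_prime k).one_lt.le) (by linarith)
  obtain ⟨ν, hν, hD, hexp⟩ :=
    Pool.Agent.Q96.EP.lawe (fun k => -(Pool.Agent.Q255.IC.pr k : ℝ) ^ ((δ - 1) / 2)) hd
  refine ⟨ν, hν, ⟨δ⁻¹, fun x _ => ?_⟩, fun θ ε h1 h2 h3 => ?_⟩
  · rw [info_eq]
    exact (hD _).trans (sum_pr_le hδ0 hδ.le x)
  · have h4 := hLow ν ((1 + δ) / 2) (by linarith) (by linarith) (fun s => by
      rw [hexp s, show (1 + δ) / 2 - 1 = (δ - 1) / 2 by ring]) θ ε h1 h2 h3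
    have h5 : (1 + δ) / 2 + θ * (1 - (1 + δ) / 2) - ε = 1 - (1 - δ) * (1 - θ) / 2 - ε := by ring
    filter_upwards [h4] with Z hZ
    rw [h5] at hZ
    have h6 : ∀ ω, Pool.Agent.Q163.HC.gf (cm ω) false = g₁ (f ω) := fun ω => (g1_eq (f ω)).symm
    have h7 : ∀ ω, Pool.Agent.Q163.HC.gf (cm ω) true = g₂ (f ω) := fun ω => (g2_eq (f ω)).symm
    constructor
    · obtain ⟨N, a1, a2, a3⟩ := hZ false
      refine ⟨N, a1, a2, ?_⟩
      simp only [h6] at a3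
      exact a3
    · obtain ⟨N, a1, a2, a3⟩ := hZ true
      refine ⟨N, a1, a2, ?_⟩
      simp only [h7] at a3
      exact a3

/-- **The discrepancies at a given amount of information.** -/
theorem result :
    -- (1) all laws with `I(x) ≤ x^{δ + o(1)}`, `δ < 1`: the exponent and the conjecture
    (∀ (ν : Measure (ℕ → Bool)) [IsProbabilityMeasure ν] (δ : ℝ), 0 ≤ δ → δ < 1 →
      InformationExponentAtMost ν δ → ∀ᵐ ω ∂ν, ∀ ω' : ℕ → Bool, {k | ω' k ≠ ω k}.Finite →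
        ExponentAtMost (f ω') (fun θ => 1 - (1 - δ) * (1 - θ) / 2) ∧
        ∀ θ : ℝ, 0 < θ → θ < 1 → DEH (f ω') θ) ∧
    -- (2) the exponent is optimal in the mean
    (∀ δ : ℝ, 0 < δ → δ < 1 → ∃ ν : Measure (ℕ → Bool), IsProbabilityMeasure ν ∧
      (∃ C : ℝ, ∀ x : ℕ, 1 ≤ x → information ν x ≤ C * (x : ℝ) ^ δ) ∧
      ∀ θ ε : ℝ, 0 < θ → θ < 1 → 0 < ε → ∀ᶠ Z : ℕ in atTop,
        (∃ N : ℕ, Z < N ∧ N ≤ 2 * Z ∧
          (N : ℝ) ^ (1 - (1 - δ) * (1 - θ) / 2 - ε) ≤ ∫ ω, D (g₁ (f ω)) N θ ∂ν) ∧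
        ∃ N : ℕ, Z < N ∧ N ≤ 2 * Z ∧
          (N : ℝ) ^ (1 - (1 - δ) * (1 - θ) / 2 - ε) ≤ ∫ ω, D (g₂ (f ω)) N θ ∂ν) := by
  refine ⟨fun ν _ δ h0 h1 hν => ?_, fun δ h0 h1 => lower Pool.Agent.Q149.EP.dlow h0 h1⟩
  filter_upwards [upper ν h0 (IL_of hν)] with ω hω ω' hω'
  have h2 := exponent_of h1 (hω ω' hω')
  refine ⟨h2, fun θ h3 h4 => deh_of h2 h3 h4 ?_⟩
  have h5 : 0 < (1 - δ) * (1 - θ) := mul_pos (by linarith) (by linarith)
  linarith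

end Pool.Agent.Results.MP_e9eb55_nt.ExponentAtGivenInformation
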