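import Pool.Agent.Q163.HC.EHb
import Pool.Agent.Q163.HC.Cexp

set_option autoImplicit false

/-!
# The twisted Elliott-Halberstam conjecture for randomly changed Moebius functions

Let `Q` be a set of primes with exponent of convergence below `1` and let `χ` be the completely multiplicative
function with arbitrary given signs at the primes of `Q` (for instance `1`) and independent fair signs at the
other primes. For almost every `χ` the diagonal twisted conjecture dEH(N ^ θ) holds for `μ χ` and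
`μ χ log` for every `θ < 1` and ALL large `N`, with a power saving. If all the signs are random, the full twisted
conjecture holds, with arbitrary classes and endpoints, and with square root cancellation in every class.
-/

namespace Pool.Agent.Results.MP_e9eb55_nt.RandomChanges

open Finset Filter Topology MeasureTheory Pool.Agent.Q163.RP Pool.Agent.Q163.RX
  Pool.Agent.Q163.GC Pool.Agent.Q163.WM Pool.Agent.Q163.EX Pool.Agent.Q163.HC

/-- `g₁(m) = μ(m) f(m)` -/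
noncomputable def g₁ (f : ℕ → ℝ) (m : ℕ) : ℝ := ((ArithmeticFunction.moebius m : ℤ) : ℝ) * f m

/-- `g₂(m) = μ(m) f(m) log m` -/
noncomputable def g₂ (f : ℕ → ℝ) (m : ℕ) : ℝ :=
  ((ArithmeticFunction.moebius m : ℤ) : ℝ) * f m * Real.log m

/-- `D_g(N; θ)` as in the problem -/
noncomputable def D (g : ℕ → ℝ) (N : ℕ) (θ : ℝ) : ℝ :=
  ∑ q ∈ (Finset.Icc 1 N).filter (fun q : ℕ => (q : ℝ) ≤ (N : ℝ) ^ θ ∧ Nat.Coprime q N),
    |∑ n ∈ (Finset.Ico 1 N).filter (fun n => n ≡ N [MOD q]), ArithmeticFunction.vonMangoldt n * g (N - n) -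
      1 / (Nat.totient q : ℝ) * ∑ n ∈ Finset.Ico 1 N, ArithmeticFunction.vonMangoldt n * g (N - n)|

/-- the statement dEH(N ^ θ) for the functions `μ f` and `μ f log` -/
def DEH (f : ℕ → ℝ) (θ : ℝ) : Prop :=
  ∀ A : ℝ, 0 < A → ∃ C : ℝ, ∀ᶠ N : ℕ in atTop,
    D (g₁ f) N θ ≤ C * (N * Real.log N ^ (-A)) ∧ D (g₂ f) N θ ≤ C * (N * Real.log N ^ (-A))

/-- the discrepancies with a class `a q` and an endpoint `y q` for every modulus `q` -/
noncomputable def Dfull (g : ℕ → ℝ) (N : ℕ) (θ : ℝ) (a y : ℕ → ℕ) : ℝ :=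
  ∑ q ∈ (Finset.Icc 1 N).filter (fun q : ℕ => (q : ℝ) ≤ (N : ℝ) ^ θ),
    |∑ n ∈ (Finset.Ico 1 (y q)).filter (fun n => n ≡ a q [MOD q]),
        ArithmeticFunction.vonMangoldt n * g (N - n) -
      1 / (Nat.totient q : ℝ) * ∑ n ∈ Finset.Ico 1 (y q), ArithmeticFunction.vonMangoldt n * g (N - n)|

/-- power saving for the diagonal discrepancies at all levels -/
def Diagonal (f : ℕ → ℝ) (σ₀ : ℝ) : Prop :=
  ∀ σ θ : ℝ, σ₀ < σ → σ ≤ 1 → 0 < θ → θ < 1 → ∀ᶠ N : ℕ in atTop,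
    D (g₁ f) N θ ≤ (N : ℝ) ^ (σ + θ * (1 - σ)) ∧ D (g₂ f) N θ ≤ (N : ℝ) ^ (σ + θ * (1 - σ))

/-- square root cancellation in every class, for all endpoints -/
def EveryClass (g : ℕ → ℝ) : Prop :=
  ∀ ε : ℝ, 0 < ε → ∀ᶠ N : ℕ in atTop, ∀ q a y : ℕ, 1 ≤ q → q ≤ N → y ≤ N →
    |∑ n ∈ (Finset.Ico 1 y).filter (fun n => n ≡ a [MOD q]),
      ArithmeticFunction.vonMangoldt n * g (N - n)| ≤ ((N : ℝ) / q) ^ (1 / 2 : ℝ) * (N : ℝ) ^ ε

/-- the full twisted conjecture with a power saving -/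
def Full (g : ℕ → ℝ) : Prop :=
  ∀ θ ε : ℝ, 0 < θ → θ < 1 → 0 < ε → ∀ᶠ N : ℕ in atTop, ∀ a y : ℕ → ℕ, (∀ q, y q ≤ N) →
    Dfull g N θ a y ≤ (N : ℝ) ^ ((1 + θ) / 2 + ε)

lemma g1_eq (f : ℕ → ℝ) : g₁ f = gf f false := by
  funext m
  unfold g₁ gf lg
  simp

lemma g2_eq (f : ℕ → ℝ) : g₂ f = gf f true := by
  funext m
  unfold g₂ gf lg
  simp

theorem diagonal_ae (Q : Set ℕ) (s : ℕ → ℝ) (hs : ∀ p, s p = 1 ∨ s p = -1) :
    ∀ᵐ ω ∂cm, Diagonal (chi Q s ω) (max (1 / 2) (cexp Q)) := by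
  have h1 : ∀ᵐ ω ∂cm, ∀ (r : ℚ) (A : ℕ), max (1 / 2) (cexp Q) < (r : ℝ) → ∀ᶠ R : ℕ in atTop,
      ∀ N q : ℕ, 1 ≤ N → N ≤ R ^ A → 1 ≤ q → q ≤ R ^ A → ∀ l,
        |∑ m ∈ Finset.Icc 1 R, wt l N q m * mult (vl Qᶜ s ω) m| ≤ 4 * (R : ℝ) ^ (r : ℝ) := by
    rw [ae_all_iff]
    intro r
    rw [ae_all_iff]
    intro A
    by_cases hr : max (1 / 2) (cexp Q) < (r : ℝ)
    · obtain ⟨σ', h2, h3⟩ := exists_between hr
      filter_upwards [diag_ae Qᶜ hs (lt_of_le_of_lt (le_max_left _ _) h2) h3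
        (Cv_of_lt (lt_of_le_of_lt (le_max_right _ _) h2)) A] with ω hω _
      exact hω
    · exact Eventually.of_forall fun ω h => absurd h hr
  filter_upwards [h1] with ω hω σ θ hσ hσ1 hθ0 hθ
  obtain ⟨r, hr1, hr2⟩ := exists_rat_btwn hσ
  have hr0 : (0 : ℝ) ≤ r := by
    have := lt_of_le_of_lt (le_max_left _ _) hr1
    linarith
  have h2 := diag_final (vl Qᶜ s ω) (abs_vl _ hs ω) r hr0 (by linarith) (fun A => hω r A hr1) θ hθ0.le hθ
  have hδ : 0 < (σ - r) * (1 - θ) := mul_pos (by linarith) (by linarith)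
  filter_upwards [h2, polylog 8 _ hδ, eventually_ge_atTop 1] with N hN1 hN2 hN
  have hNp : (0 : ℝ) < N := by exact_mod_cast hN
  have h3 : ∀ l, Dg (gf (mult (vl Qᶜ s ω)) l) N θ ≤ (N : ℝ) ^ (σ + θ * (1 - σ)) := by
    intro l
    refine (hN1 l).trans ?_
    have h4 : (N : ℝ) ^ (σ + θ * (1 - σ)) =
        (N : ℝ) ^ ((σ - r) * (1 - θ)) * (N : ℝ) ^ ((r : ℝ) + θ * (1 - r)) := by
      rw [← Real.rpow_add hNp]
      congr 1
      ring
    rw [h4]
    exact mul_le_mul_of_nonneg_right hN2 (by positivity)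
  have h5 : chi Q s ω = mult (vl Qᶜ s ω) := funext (chi_eq Q s ω)
  rw [g1_eq, g2_eq, h5]
  exact ⟨h3 false, h3 true⟩

lemma deh_of {f : ℕ → ℝ} {σ₀ : ℝ} (h : Diagonal f σ₀) (hσ₀ : σ₀ < 1) (θ : ℝ) (hθ0 : 0 < θ)
    (hθ : θ < 1) : DEH f θ := by
  intro A hA
  obtain ⟨σ, h1, h2⟩ := exists_between hσ₀
  have h3 := h σ θ h1 h2.le hθ0 hθ
  have hδ : 0 < (1 - σ) * (1 - θ) := mul_pos (by linarith) (by linarith)
  have h4 : ∀ᶠ N : ℕ in atTop, ‖Real.log (N : ℝ) ^ A‖ ≤ 1 * ‖(N : ℝ) ^ ((1 - σ) * (1 - θ))‖ :=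
    tendsto_natCast_atTop_atTop.eventually ((isLittleO_log_rpow_rpow_atTop A hδ).bound zero_lt_one)
  refine ⟨1, ?_⟩
  filter_upwards [h3, h4, eventually_ge_atTop 3] with N hN1 hN2 hN
  have hN3 : (3 : ℝ) ≤ N := by exact_mod_cast hN
  have hNp : (0 : ℝ) < N := by linarith
  have hlog : 0 < Real.log N := Real.log_pos (by linarith)
  rw [Real.norm_of_nonneg (by positivity), Real.norm_of_nonneg (by positivity), one_mul] at hN2
  have h5 : (N : ℝ) ^ (σ + θ * (1 - σ)) ≤ 1 * (N * Real.log N ^ (-A)) := by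
    rw [one_mul, Real.rpow_neg hlog.le, ← div_eq_mul_inv, le_div_iff₀ (by positivity)]
    calc (N : ℝ) ^ (σ + θ * (1 - σ)) * Real.log N ^ A ≤
          (N : ℝ) ^ (σ + θ * (1 - σ)) * (N : ℝ) ^ ((1 - σ) * (1 - θ)) :=
          mul_le_mul_of_nonneg_left hN2 (by positivity)
      _ = N := by
          rw [← Real.rpow_add hNp]
          have : σ + θ * (1 - σ) + (1 - σ) * (1 - θ) = 1 := by ring
          rw [this, Real.rpow_one]
  exact ⟨hN1.1.trans h5, hN1.2.trans h5⟩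

lemma chi_empty (s : ℕ → ℝ) (ω : ℕ → Bool) : chi ∅ s ω = ch ω := by
  funext n
  unfold chi ch mult sg es sgn
  refine Finset.prod_congr rfl fun p _ => ?_
  rw [if_pos (Set.mem_univ p), if_neg (Set.notMem_empty p)]

theorem full_ae' (s : ℕ → ℝ) : ∀ᵐ ω ∂cm, ∀ l, EveryClass (gf (chi ∅ s ω) l) ∧ Full (gf (chi ∅ s ω) l) := by
  filter_upwards [full_ae] with ω hω l
  rw [chi_empty]
  have h1 : EveryClass (gf (ch ω) l) := by
    intro ε hε
    filter_upwards [hω ε hε] with N hN q a y hq hqN hy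
    exact hN l q a y hq hqN hy
  refine ⟨h1, ?_⟩
  intro θ ε hθ0 hθ hε
  filter_upwards [h1 (ε / 2) (by positivity), polylog 2 (ε / 2) (by positivity),
    eventually_ge_atTop 1] with N hN1 hN2 hN a y hy
  have hNp : (0 : ℝ) < N := by exact_mod_cast hN
  refine (Df_le (gf (ch ω) l) N hN θ hθ0.le hθ.le ((N : ℝ) ^ (ε / 2)) hN1 a y hy).trans ?_
  have h2 : (N : ℝ) ^ ((1 + θ) / 2 + ε) =
      (N : ℝ) ^ (ε / 2) * (N : ℝ) ^ ((1 + θ) / 2) * (N : ℝ) ^ (ε / 2) := by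
    rw [← Real.rpow_add hNp, ← Real.rpow_add hNp]
    congr 1
    ring
  rw [h2]
  refine mul_le_mul_of_nonneg_right ?_ (by positivity)
  exact mul_le_mul_of_nonneg_right hN2 (by positivity)

/-- **The twisted Elliott-Halberstam conjecture for randomly changed Moebius functions.** -/
theorem result :
    -- (1) the signs are prescribed at the primes of `Q`: the diagonal conjecture
    (∀ (Q : Set ℕ) (s : ℕ → ℝ), (∀ p, s p = 1 ∨ s p = -1) →
      ∀ᵐ ω ∂cm, ∀ ω' : ℕ → Bool, {p | ω' p ≠ ω p}.Finite →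
        Diagonal (chi Q s ω') (max (1 / 2) (cexp Q)) ∧
        (cexp Q < 1 → ∀ θ : ℝ, 0 < θ → θ < 1 → DEH (chi Q s ω') θ)) ∧
    -- (2) all the signs are random: all classes and all endpoints
    (∀ᵐ ω ∂cm, ∀ ω' : ℕ → Bool, {p | ω' p ≠ ω p}.Finite →
      EveryClass (g₁ (chi ∅ 1 ω')) ∧ EveryClass (g₂ (chi ∅ 1 ω')) ∧
      Full (g₁ (chi ∅ 1 ω')) ∧ Full (g₂ (chi ∅ 1 ω'))) := by
  refine ⟨fun Q s hs => ae_fin ?_, ae_fin ?_⟩
  · filter_upwards [diagonal_ae Q s hs] with ω hω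
    exact ⟨hω, fun hQ θ h0 h1 => deh_of hω (max_lt (by norm_num) hQ) θ h0 h1⟩
  · filter_upwards [full_ae' 1] with ω hω
    rw [g1_eq, g2_eq]
    exact ⟨(hω false).1, (hω true).1, (hω false).2, (hω true).2⟩

end Pool.Agent.Results.MP_e9eb55_nt.RandomChanges
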